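import Pool.Agent.H36.BP.T.FEW
import Pool.Agent.H36.BP.T.DENS
import Pool.Agent.H36.BP.T.OM
import Pool.Agent.H36.LC.T.CORE
import Pool.Agent.H36.LC.T.THM
import Pool.Agent.H36.LC.T.Final
import Pool.Agent.H36.LC.T.DEV
import Pool.Agent.H36.LC.T.POT
import Pool.Agent.H36.LC.T.RIGHT
import Pool.Agent.H36.LC.T.LEVEL
import Pool.Agent.H36.LC.T.BIGS
import Pool.Agent.H36.LC.T.NORM
import Pool.Agent.H36.LC.T.CLU
import Pool.Agent.H36.LC.T.NUM

/-!
# Project LC: assembly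
-/

set_option autoImplicit false

namespace Pool.Agent.H36.LC

open Pool.Agent.H36.BK Pool.Agent

theorem bigs_all : S_bigs2 :=
  T.bigs (T.level (T.right T.dev T.pot))

theorem clu_all : S_clu2 := T.clu bigs_all T.norm

theorem thm_all : Pool.Agent.H36.LC.S_thm :=
  Pool.Agent.H36.LC.T.thm (Pool.Agent.H36.LC.T.core H82.BK.four (H82.BK.uni H82.BK.four) H82.BK.fkg
    (Pool.Agent.H36.BK.cov (Pool.Agent.H36.BK.var Pool.Agent.H36.BK.iid Pool.Agent.H36.BK.img))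
    (Pool.Agent.H36.BP.T.dens H82.BK.four Pool.Agent.H36.BK.spread H82.BK.lc
      (Pool.Agent.H36.BP.T.few Pool.Agent.H36.BP.T.om))
    Pool.Agent.H36.BK.ind (Pool.Agent.H36.BK.pair H82.BK.fkg (Pool.Agent.H36.BK.near H82.BK.hmax))
    clu_all Pool.Agent.H36.BK.lim) Pool.Agent.H36.LC.T.num

end Pool.Agent.H36.LC
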