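import Pool.Agent.H36.BP.Stm

/-!
# Project LC: the sixth power (statements)

The laws of project BK are log-concave. With piecewise linear instead of piecewise constant
approximation on the dyadic tree the exponent `1/4` becomes `1/6`. Every stub `S_x : Prop` is to be
proved as `theorem x : S_x`, or `theorem x : S_a → S_b → S_x` if the docstring names stubs it uses
(namespace `Pool.Agent.H36.LC.T`, file `Pool/Agent/H36/LC/T/<NAME>.lean`, importing this file).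
-/

set_option autoImplicit false

open Finset Filter Topology
open scoped Classical

namespace Pool.Agent.H36.LC

open Pool.Agent.H36.BK Pool.Agent.H36.BK.LW Pool.Agent.H13R3.WB Pool.Agent.H931R3.Bal

/-- log-concave sequences -/
def LCc (p : ℕ → ℝ) : Prop :=
  ∀ a b c d : ℕ, a ≤ b → a ≤ c → a + d = b + c → p a * p d ≤ p b * p c

/-- `p` is not near to a linear function on the dyadic node `(j, v)` -/
def Big2 (τ : ℝ) (J : ℕ) (p : ℕ → ℝ) (j v : ℕ) : Prop :=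
  ∀ α β : ℝ, ∃ s ∈ Ico (v * 2 ^ (J - j)) ((v + 1) * 2 ^ (J - j)),
    τ < 2 ^ (J - j) * |p s - (α + β * s)|

/-- the big nodes of second order -/
noncomputable def bigs2 (τ : ℝ) (J : ℕ) (p : ℕ → ℝ) : Finset (ℕ × ℕ) :=
  (nodes J).filter fun u => Big2 τ J p u.1 u.2

/-- the root, the big nodes and the children of the big nodes -/
noncomputable def key2 (τ : ℝ) (J : ℕ) (p : ℕ → ℝ) : Finset (ℕ × ℕ) :=
  (nodes J).filter fun u => u = (0, 0) ∨ u ∈ bigs2 τ J p ∨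
    ∃ w ∈ bigs2 τ J p, u = (w.1 + 1, 2 * w.2) ∨ u = (w.1 + 1, 2 * w.2 + 1)

/-- the bound on the number of elements of a cluster -/
noncomputable def clu2 (l : ℕ) (K ε : ℝ) : ℝ :=
  (2 * 8 ^ l * (100 * 8 ^ l / ε + 1) ^ 2 + 1) ^ (300 * 2 ^ l) * (16 / ε + 1) *
    Real.exp (Real.pi * (500000 * K ^ 2 / (ε * 32 ^ l)))

/-- LC-DEV. Let `P0 = p a`, `P1 = p (a + L)`, `P2 = p (a + 2 L)`, `d0 = P0 - P1`, `d1 = P1 - P2`,
`c s = 1 - p (s+1) / p s`, nondecreasing in `s` where `p s > 0` (if `P1 = 0` all is `0`; if `P2 = 0`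
then `d1 = P1`, `P1 ≤ θ`, and the deviation is at most `P1`).
Below the chord: `p (a+L) - p (a+L+k) = ∑ p s * c s ≤ P1 * ∑_{first k} c ≤ P1 (k/L) ∑_{all L} c ≤
(k/L) P1 d1 / P2`, so `p (a+L+k) ≥ P1 - (k/L) d1 - (k/L) d1²/P2`; if `2 P2 ≥ P1` this is within
`2 d1²/P1 ≤ 2 θ`; if `2 P2 < P1` then `d1 > P1/2`, so `d1 ≤ 2 d1²/P1 ≤ 2 θ`, trivial.
Above the chord: `d0 = ∑ p s * c s ≤ P0 * L * c (a+L)`, so for `s ≥ a + L`: `c s ≥ d0 / (L P0)` and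
`p (a+L) - p (a+L+k) ≥ k P2 d0 / (L P0) = (k/L) (d0 - d0 (d0 + d1)/P0)`, so `p (a+L+k) ≤
P1 - (k/L) d1 + (k/L) (d1 - d0 + d0²/P0 + d0 d1/P0)`, and `d0 d1 / P0 ≤ max (d0²/P0) (d1²/P1) ≤ θ`. -/
def S_dev : Prop :=
  ∀ (p : ℕ → ℝ) (a L : ℕ) (θ : ℝ), 1 ≤ L → 0 ≤ θ → (∀ s, 0 ≤ p s) → LCc p →
    (∀ i j, a ≤ i → i ≤ j → p j ≤ p i) →
    (p a - p (a + L)) ^ 2 ≤ θ * p a →
    (p (a + L) - p (a + 2 * L)) ^ 2 ≤ θ * p (a + L) →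
    (p (a + L) - p (a + 2 * L)) - (p a - p (a + L)) ≤ θ →
    ∀ k, k ≤ L → |p (a + L + k) -
      (p (a + L) - (k : ℝ) / L * (p (a + L) - p (a + 2 * L)))| ≤ 3 * θ

/-- LC-POT. Let `d i = P i - P (i+1) ≥ 0`. (a) If `d i ^ 2 > θ P i` then
`√(P i) - √(P (i+1)) ≥ d i / (2 √(P i)) > √θ / 2`: at most `2 √(B/θ)` such `i`, and as many with
`d (i+1) ^ 2 > θ P (i+1)`. (b) Let `F i = min (d i / √θ) (√(P i)) - 2 √(P i)`, in `[-2 √B, 0]`. It is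
nondecreasing: `d (i+1) ≥ d i - (d i)²/P i` (from `P i * P (i+2) ≤ P (i+1)²`) and
`√(P i) - √(P (i+1)) ≥ d i / (2 √(P i))`. For the other `i` with `d (i+1) - d i > θ` both minima are the
first terms and `F (i+1) - F i ≥ √θ`: at most `2 √(B/θ)` such `i`. -/
def S_pot : Prop :=
  ∀ (P : ℕ → ℝ) (B θ : ℝ) (n : ℕ), 0 < θ → (∀ i, 0 ≤ P i) → (∀ i, P (i + 1) ≤ P i) →
    (∀ i, P i * P (i + 2) ≤ P (i + 1) ^ 2) → P 0 ≤ B →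
    (((range n).filter fun i => ¬ ((P i - P (i + 1)) ^ 2 ≤ θ * P i ∧
      (P (i + 1) - P (i + 2)) ^ 2 ≤ θ * P (i + 1) ∧
      (P (i + 1) - P (i + 2)) - (P i - P (i + 1)) ≤ θ)).card : ℝ) ≤ 6 * √(B / θ)

/-- LC-RIGHT. From `S_dev`, `S_pot` with `P i = p (a + i * L)`. -/
def S_right : Prop :=
  ∀ (p : ℕ → ℝ) (a L n : ℕ) (B θ : ℝ), 1 ≤ L → 0 < θ → (∀ s, 0 ≤ p s) → LCc p →
    (∀ i j, a ≤ i → i ≤ j → p j ≤ p i) → p a ≤ B →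
    (((range n).filter fun i => ∀ α β : ℝ, ∃ k, k ≤ L ∧
      3 * θ < |p (a + (i + 1) * L + k) - (α + β * k)|).card : ℝ) ≤ 6 * √(B / θ)

/-- LC-LEVEL. From `S_right`. Let `L = 2 ^ (J - j)`, `m` the mode, `u = m / L`. The nodes `v ≥ u + 2`:
`S_right` with `a = (u + 1) * L`, `i = v - u - 2`. The nodes `v + 2 ≤ u`: `S_right` for the reflected
sequence `p' s = if s ≤ u * L then p (u * L - s) else 0` with `a = 0`, `i = u - v - 2` (the node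
`v` consists of the points `u * L - (i + 1) * L - k`, `1 ≤ k ≤ L`). Three nodes remain.
Here `τ = 3 θ L`. -/
def S_level : Prop :=
  ∀ (p : ℕ → ℝ) (J j : ℕ) (B θ : ℝ), j ≤ J → 0 < θ → (∀ s, 0 ≤ p s) → LCc p → Unim p →
    (∀ s, p s ≤ B) →
    (((range (2 ^ j)).filter fun v => Big2 (3 * θ * 2 ^ (J - j)) J p j v).card : ℝ) ≤
      12 * √(B / θ) + 3

/-- LC-BIGS. From `S_level`. With `τ = K / 8^l`, `B = K / 2^J`, `θ = τ / (3 * 2^(J-j))`: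
`B / θ = 3 * 8^l / 2^j`, at most `21 √(8^l / 2^j) + 3` big nodes of level `j`, at most `2^j`, and none
for `j ≥ 3 l` (`α = β = 0`: `2^(J-j) p s ≤ K / 2^j ≤ τ`). Sum `≤ 2^l + 21 * 3.4143 * 2^l + 6 l`. -/
def S_bigs2 : Prop :=
  ∀ (J l : ℕ) (K : ℝ) (p : ℕ → ℝ), 0 < K → (∀ s, 0 ≤ p s) → (∀ s, p s ≤ K / 2 ^ J) → Unim p →
    LCc p →
    (bigs2 (K / 8 ^ l) J p).card ≤ 80 * 2 ^ l ∧ ∀ u ∈ bigs2 (K / 8 ^ l) J p, u.1 < 3 * l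

/-- LC-NORM. Compare `Pool/Agent/H96/BK/Norm.lean`. Let `a = p - q`. For a node `u` of the key which is
not big for `p` and not big for `q`, with length `L = 2 H`: `a s = A + B k + err` (`k = s - v L`),
`|err| ≤ 2 τ / L`, and both halves have mass at most `ξ ≤ τ`, so `|H A + B H (H-1)/2| ≤ 2 τ`,
`|H A + B (H² + H (H-1)/2)| ≤ 2 τ`, `|B| ≤ 4 τ / H²`, `|A| ≤ 4 τ / H`, `|a s| ≤ 26 τ / L`. Inside such
a node the whole sum is at most `(26 τ)²` (induction: `c²/2 + 2 (c/2)² = c²` if `|a s| ≤ c / L`). If a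
node is big for `p` (or for `q`) its children (if they are in `nodes J`) are in the key. Induction
from the bottom: the sum over the nodes outside of the key in the subtree of a node of the key is at
most `(26 τ)²` times the number of the nodes of the key in this subtree. -/
def S_norm2 : Prop :=
  ∀ (J : ℕ) (τ ξ : ℝ) (p q : ℕ → ℝ), 0 ≤ ξ → ξ ≤ τ → key2 τ J p = key2 τ J q →
    (∀ u ∈ key2 τ J p,
      |mass p J (u.1 + 1) (2 * u.2) - mass q J (u.1 + 1) (2 * u.2)| ≤ ξ ∧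
      |mass p J (u.1 + 1) (2 * u.2 + 1) - mass q J (u.1 + 1) (2 * u.2 + 1)| ≤ ξ) →
    ∑ u ∈ nodes J \ key2 τ J p,
      ((mass p J (u.1 + 1) (2 * u.2) - mass q J (u.1 + 1) (2 * u.2)) ^ 2 +
        (mass p J (u.1 + 1) (2 * u.2 + 1) - mass q J (u.1 + 1) (2 * u.2 + 1)) ^ 2) ≤
      (key2 τ J p).card * (30 * τ) ^ 2

/-- LC-CLU. From `S_bigs2`, `S_norm2` (and `tree`, `key` of project BK). Adapt
`Pool/Agent/H36/BK/Clu.lean`. `τ = K/8^l`, `ξ = ε/(100 * 8^l)`, `I i = key2 τ J (p i) ⊆ nodes (3 l + 1)`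
(at most `2 * 8^l` nodes), `m = 300 * 2^l ≥ 1 + 3 * 80 * 2^l`. The nodes of the key contribute at most
`300 * 2^l * 2 ξ² ≤ ε/8`, square norms of the vectors at most
`(2/ε) (241 * 2^l) (30 τ)² ≤ 500000 K²/(ε 32^l)`. -/
def S_clu2 : Prop :=
  ∀ (ι : Type) (S : Finset ι) (p : ι → ℕ → ℝ) (J l : ℕ) (K ε : ℝ), 3 * l + 1 ≤ J → 1 ≤ K → 0 < ε →
    ε ≤ 1 → (∀ i ∈ S, (∀ s, 0 ≤ p i s) ∧ ∑ s ∈ range (2 ^ J), p i s = 1 ∧
      (∀ s, p i s ≤ K / 2 ^ J) ∧ Unim (p i) ∧ LCc (p i)) →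
    (∀ i ∈ S, ∀ j ∈ S, i ≠ j → ε ≤ |om (2 ^ J) (p i) (p j)|) → (S.card : ℝ) ≤ clu2 l K ε

/-- LC-CORE (helper36) -/
def S_core : Prop :=
  ∀ (α : Type) [Fintype α] [PartialOrder α] (κ : ℕ) (A : Finset α) (ε lam : ℝ) (l D r : ℕ),
    1 ≤ κ → IsAntichain (· ≤ ·) (A : Set α) → A.Nonempty → Fintype.card α ≤ κ * A.card →
    0 < ε → ε ≤ 1 → 1 ≤ D → 0 ≤ lam → 8 * ((2 : ℝ) ^ 14 * κ) / ε ≤ 2 ^ r →
    12 * 2 ^ r * lam ≤ ε / 4 → 32 * ((2 : ℝ) ^ 14 * κ) ^ 2 * (κ / D) ≤ lam ^ 3 →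
    (∀ x ∈ A, ∀ y ∈ A, x ≠ y → 3 / 2 * ε < |prob α x y - prob α y x|) →
    (A.card : ℝ) ≤ 12 * (2 * D + 1) * clu2 l (2 ^ 14 * κ) ε

/-- LC-NUM. Adapt `Pool/Agent/H36/BP/T/NUM.lean`. `K = 2^14 κ`, `lam`, `r`, `D` as there;
`a = (K²/ε)^(1/6) ≤ 2^5 (κ²/ε)^(1/6)`, `L = log (K²/ε) = 27 log 2 + log (2κ²/ε)`, `a ≤ 2^l ≤ 2 a`. As
`1/ε ≤ a^6` and `K²/(ε 32^l) ≤ a`: the base of `clu2` is at most `2^24 a^21 ≤ exp (17 + 3.5 L)`,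
`clu2 ≤ exp (600 a (17 + 3.5 L) + 3 + L + 1570800 a)`, and `12 (2D+1) ≤ exp (40 + 6 L)`.
Sum `≤ a (1581043 + 2107 L) < 2^26 (κ²/ε)^(1/6) log (2κ²/ε)`. -/
def S_num : Prop :=
  ∀ (κ w : ℕ) (ε : ℝ), 1 ≤ κ → 0 < ε → ε ≤ 1 / 2 →
    Real.exp (2 ^ 26 * ((κ : ℝ) ^ 2 / ε) ^ (1 / 6 : ℝ) * Real.log (2 * (κ : ℝ) ^ 2 / ε)) ≤ w →
    ∃ (l D r : ℕ) (lam : ℝ), 1 ≤ D ∧ 0 ≤ lam ∧ 8 * ((2 : ℝ) ^ 14 * κ) / ε ≤ 2 ^ r ∧
      12 * 2 ^ r * lam ≤ ε / 4 ∧ 32 * ((2 : ℝ) ^ 14 * κ) ^ 2 * (κ / D) ≤ lam ^ 3 ∧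
      12 * (2 * D + 1) * clu2 l (2 ^ 14 * κ) ε < w

/-- LC-THM (helper36) -/
def S_thm : Prop :=
  ∀ (κ w : ℕ) (ε : ℝ), 1 ≤ κ → 0 < ε → ε ≤ 1 / 2 →
    Real.exp (2 ^ 26 * ((κ : ℝ) ^ 2 / ε) ^ (1 / 6 : ℝ) * Real.log (2 * (κ : ℝ) ^ 2 / ε)) ≤ w →
    ∀ (P : Type) [Fintype P] [PartialOrder P] (A : Finset P), IsAntichain (· ≤ ·) (A : Set P) →
      A.card = w → Fintype.card P ≤ κ * w → 1 / 2 - ε ≤ balance P

end Pool.Agent.H36.LC
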